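import Mathlib

/-!
# MP_e02782_co: almost no isotopism class of Latin squares contains a solution

`s_n / I_n → 0`.
-/

namespace Pool.Agent.Results.MP_e02782_co.FewClasses

open Relation

/-- The six cubes sharing a face with the cube `c`: one coordinate is changed by `1`. -/
def nbrs (c : ℤ × ℤ × ℤ) : Finset (ℤ × ℤ × ℤ) :=
  {(c.1 + 1, c.2.1, c.2.2), (c.1 - 1, c.2.1, c.2.2),
   (c.1, c.2.1 + 1, c.2.2), (c.1, c.2.1 - 1, c.2.2),
   (c.1, c.2.1, c.2.2 + 1), (c.1, c.2.1, c.2.2 - 1)}

/-- The cube `[n]^3`. -/
noncomputable def cube (n : ℕ) : Finset (ℤ × ℤ × ℤ) :=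
  Finset.Icc 1 (n : ℤ) ×ˢ Finset.Icc 1 (n : ℤ) ×ˢ Finset.Icc 1 (n : ℤ)

/-- A move deletes from the current set `P` a vertex with exactly three neighbours in `P`. -/
def Move (P Q : Finset (ℤ × ℤ × ℤ)) : Prop :=
  ∃ c ∈ P, (nbrs c ∩ P).card = 3 ∧ Q = P.erase c

/-- A solution: `n^2` pairwise non-adjacent vertices reached from `[n]^3` by a finite sequence of
moves. -/
def IsSolution (n : ℕ) (B : Finset (ℤ × ℤ × ℤ)) : Prop :=
  B ⊆ cube n ∧ B.card = n ^ 2 ∧ (∀ a ∈ B, ∀ b ∈ B, b ∉ nbrs a) ∧ ReflTransGen Move (cube n) B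

/-- A Latin square of order `n`: every row and every column contains every symbol exactly once. -/
def IsLatin {n : ℕ} (L : Fin n → Fin n → Fin n) : Prop :=
  (∀ i, Function.Bijective (L i)) ∧ ∀ j, Function.Bijective (fun i => L i j)

/-- The Latin squares of order `n`. -/
abbrev LatinSquare (n : ℕ) := {L : Fin n → Fin n → Fin n // IsLatin L}

/-- The set `B(L) = {(i, j, L(i,j))}` (with coordinates from `1` to `n`). -/
def assoc {n : ℕ} (L : Fin n → Fin n → Fin n) : Finset (ℤ × ℤ × ℤ) :=
  (Finset.univ : Finset (Fin n × Fin n)).image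
    (fun a => ((a.1 : ℤ) + 1, (a.2 : ℤ) + 1, (L a.1 a.2 : ℤ) + 1))

/-- `L` corresponds to a solution. -/
def Corresponds {n : ℕ} (L : LatinSquare n) : Prop := IsSolution n (assoc L.1)

/-- `L` and `L'` are isotopic: `L'` arises from `L` by permuting rows, columns and symbols. -/
def Isotopic {n : ℕ} (L L' : LatinSquare n) : Prop :=
  ∃ α β γ : Equiv.Perm (Fin n), ∀ i j, L'.1 (α i) (β j) = γ (L.1 i j)

/-- Isotopism is an equivalence relation. -/
def isoSetoid (n : ℕ) : Setoid (LatinSquare n) where
  r := Isotopic
  iseqv :=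
    { refl := fun L => ⟨1, 1, 1, fun i j => rfl⟩
      symm := by
        rintro L L' ⟨α, β, γ, h⟩
        refine ⟨α.symm, β.symm, γ.symm, fun i j => ?_⟩
        have := h (α.symm i) (β.symm j)
        rw [Equiv.apply_symm_apply, Equiv.apply_symm_apply] at this
        rw [this, Equiv.symm_apply_apply]
      trans := by
        rintro L L' L'' ⟨α, β, γ, h⟩ ⟨α', β', γ', h'⟩
        refine ⟨α' * α, β' * β, γ' * γ, fun i j => ?_⟩
        rw [Equiv.Perm.mul_apply, Equiv.Perm.mul_apply, Equiv.Perm.mul_apply, h', h] }

/-- `I_n`, the number of isotopism classes of Latin squares of order `n`. -/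
noncomputable def I (n : ℕ) : ℕ := Nat.card (Quotient (isoSetoid n))

/-- `s_n`, the number of isotopism classes containing a Latin square that corresponds to a
solution. -/
noncomputable def s (n : ℕ) : ℕ :=
  Nat.card {c : Quotient (isoSetoid n) //
    ∃ L : LatinSquare n, Quotient.mk (isoSetoid n) L = c ∧ Corresponds L}

/-! ### The process: lines stay intervals -/

abbrev V := ℤ × ℤ × ℤ

theorem mem_cube {n : ℕ} {c : V} : c ∈ cube n ↔
    (1 ≤ c.1 ∧ c.1 ≤ n) ∧ (1 ≤ c.2.1 ∧ c.2.1 ≤ n) ∧ (1 ≤ c.2.2 ∧ c.2.2 ≤ n) := by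
  simp [cube]

/-- number of right ends in direction `e` -/
def R (e : V) (S : Finset V) : ℕ := (S.filter (fun v => v + e ∉ S)).card

theorem R_insert {e : V} (he : e ≠ 0) {S : Finset V} {v : V} (hv : v ∉ S) :
    R e (insert v S) + ((if v + e ∈ S then 1 else 0) + (if v - e ∈ S then 1 else 0)) =
      R e S + 1 := by
  classical
  have hve : v + e ≠ v := by simpa using he
  have h1 : (insert v S).filter (fun w => w + e ∉ insert v S) =
      (if v + e ∈ S then ∅ else {v}) ∪ ((S.filter (fun w => w + e ∉ S)).erase (v - e)) := by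
    ext w
    simp only [Finset.mem_filter, Finset.mem_insert, Finset.mem_union, Finset.mem_erase, not_or]
    constructor
    · rintro ⟨h | h, h2, h3⟩
      · subst h
        left
        rw [if_neg h3]
        simp
      · right
        refine ⟨?_, h, h3⟩
        rintro rfl
        exact h2 (by abel)
    · rintro (h | ⟨h2, h3, h4⟩)
      · split_ifs at h with h5
        · simp at h
        · rw [Finset.mem_singleton] at h
          subst h
          exact ⟨Or.inl rfl, hve, h5⟩
      · refine ⟨Or.inr h3, ?_, h4⟩
        intro h5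
        apply h2
        rw [← h5]
        abel
  unfold R
  rw [h1, Finset.card_union_of_disjoint]
  · have h2 : (((S.filter (fun w => w + e ∉ S)).erase (v - e))).card +
        (if v - e ∈ S then 1 else 0) = (S.filter (fun w => w + e ∉ S)).card := by
      split_ifs with h
      · apply Finset.card_erase_add_one
        rw [Finset.mem_filter]
        refine ⟨h, ?_⟩
        rwa [sub_add_cancel]
      · rw [Finset.erase_eq_of_notMem, add_zero]
        rw [Finset.mem_filter]
        exact fun h' => h h'.1
    split_ifs at h2 ⊢ <;> simp <;> omega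
  · rw [Finset.disjoint_left]
    intro w hw hw2
    rw [Finset.mem_erase, Finset.mem_filter] at hw2
    split_ifs at hw with h
    · simp at hw
    · rw [Finset.mem_singleton] at hw
      subst hw
      exact hv hw2.2.1

/-- the three directions -/
def dirs : Fin 3 → V := ![(1, 0, 0), (0, 1, 0), (0, 0, 1)]

theorem dirs_ne (t : Fin 3) : dirs t ≠ 0 := by
  fin_cases t <;> simp [dirs]

/-- number of neighbours in direction `± e` -/
def dg (e : V) (S : Finset V) (v : V) : ℕ :=
  (if v + e ∈ S then 1 else 0) + (if v - e ∈ S then 1 else 0)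

theorem deg_eq (S : Finset V) (v : V) :
    (nbrs v ∩ S).card = dg (dirs 0) S v + dg (dirs 1) S v + dg (dirs 2) S v := by
  obtain ⟨x, y, z⟩ := v
  have h1 : nbrs (x, y, z) = {(x + 1, y, z), (x - 1, y, z), (x, y + 1, z), (x, y - 1, z),
    (x, y, z + 1), (x, y, z - 1)} := rfl
  rw [← Finset.filter_mem_eq_inter, Finset.card_filter, h1, Finset.sum_insert, Finset.sum_insert,
    Finset.sum_insert, Finset.sum_insert, Finset.sum_insert, Finset.sum_singleton]
  · simp [dg, dirs]
    ring
  all_goals
    simp only [Finset.mem_insert, Finset.mem_singleton, Prod.mk.injEq]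
    omega

theorem self_notMem_nbrs (c : V) : c ∉ nbrs c := by
  obtain ⟨x, y, z⟩ := c
  simp only [nbrs, Finset.mem_insert, Finset.mem_singleton, Prod.mk.injEq]
  omega

theorem exists_last {e : V} (he : e ≠ 0) (S : Finset V) {b : V} (hb : b ∈ S) :
    ∃ k : ℤ, b + k • e ∈ S ∧ ∀ k' : ℤ, k < k' → b + k' • e ∉ S := by
  classical
  have hinj : Function.Injective (fun k : ℤ => b + k • e) := by
    intro k k' h
    have h1 : k • e = k' • e := by simpa using h
    have h2 : (k - k') • e = 0 := by rw [sub_smul, h1, sub_self]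
    rcases smul_eq_zero.1 h2 with h3 | h3
    · omega
    · exact absurd h3 he
  let T : Finset ℤ := S.preimage (fun k : ℤ => b + k • e) hinj.injOn
  have h0 : (0 : ℤ) ∈ T := by
    rw [Finset.mem_preimage]
    simpa using hb
  refine ⟨T.max' ⟨0, h0⟩, ?_, ?_⟩
  · have hm : T.max' ⟨0, h0⟩ ∈ S.preimage (fun k : ℤ => b + k • e) hinj.injOn :=
      T.max'_mem ⟨0, h0⟩
    rw [Finset.mem_preimage] at hm
    exact hm
  · intro k' hk' hmem
    have : k' ≤ T.max' ⟨0, h0⟩ := T.le_max' k' (Finset.mem_preimage.2 hmem)
    omega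

/-- two points of `B` are never on a common line -/
def NoLine (B : Finset V) : Prop :=
  ∀ t : Fin 3, ∀ b ∈ B, ∀ b' ∈ B, ∀ k : ℤ, b' = b + k • dirs t → k = 0

theorem R_ge {B S : Finset V} (hB : NoLine B) (hBS : B ⊆ S) (t : Fin 3) :
    B.card ≤ R (dirs t) S ∧
      ∀ v, v ∉ S → v - dirs t ∈ S → v + dirs t ∈ S → B.card < R (dirs t) S := by
  classical
  have h1 : ∀ b : V, ∃ k : ℤ, b ∈ B → b + k • dirs t ∈ S ∧ ∀ k' : ℤ, k < k' →
      b + k' • dirs t ∉ S := by
    intro b
    by_cases hb : b ∈ B
    · obtain ⟨k, hk⟩ := exists_last (dirs_ne t) S (hBS hb)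
      exact ⟨k, fun _ => hk⟩
    · exact ⟨0, fun h => absurd h hb⟩
  choose κ hκ using h1
  let r : V → V := fun b => b + κ b • dirs t
  have hr : ∀ b ∈ B, r b ∈ S.filter (fun v => v + dirs t ∉ S) := by
    intro b hb
    rw [Finset.mem_filter]
    refine ⟨(hκ b hb).1, ?_⟩
    have := (hκ b hb).2 (κ b + 1) (by omega)
    rwa [add_smul, one_smul, ← add_assoc] at this
  have hinj : Set.InjOn r B := by
    intro b hb b' hb' h
    have h2 : b' = b + (κ b - κ b') • dirs t := by
      have h3 : b + κ b • dirs t = b' + κ b' • dirs t := h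
      rw [sub_smul, ← add_sub_assoc, h3]
      abel
    have h4 := hB t b hb b' hb' _ h2
    rw [h4, zero_smul, add_zero] at h2
    exact h2.symm
  have himg : (B.image r).card = B.card := Finset.card_image_of_injOn hinj
  have hsub : B.image r ⊆ S.filter (fun v => v + dirs t ∉ S) := by
    intro w hw
    obtain ⟨b, hb, rfl⟩ := Finset.mem_image.1 hw
    exact hr b hb
  refine ⟨?_, ?_⟩
  · rw [← himg]
    exact Finset.card_le_card hsub
  · intro v hv hv1 hv2
    rw [← himg]
    apply Finset.card_lt_card
    refine ⟨hsub, fun hcon => ?_⟩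
    have hmem : v - dirs t ∈ S.filter (fun v => v + dirs t ∉ S) := by
      rw [Finset.mem_filter]
      refine ⟨hv1, ?_⟩
      rwa [sub_add_cancel]
    obtain ⟨b, hb, hb2⟩ := Finset.mem_image.1 (hcon hmem)
    have h5 := (hκ b hb).2 (κ b + 2) (by omega)
    apply h5
    have : b + (κ b + 2) • dirs t = v + dirs t := by
      have h6 : b + κ b • dirs t = v - dirs t := hb2
      rw [add_smul, ← add_assoc, h6, two_smul]
      abel
    rw [this]
    exact hv2

/-- the invariant of the process, seen backwards from `B` -/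
theorem chain {n : ℕ} {B : Finset V} (hB : NoLine B)
    {U : Set V} (hU : ∀ b ∈ B, b ∈ U)
    (hcl : ∀ v ∈ cube n, (v + dirs 0 ∈ U ∨ v - dirs 0 ∈ U) →
      (v + dirs 1 ∈ U ∨ v - dirs 1 ∈ U) → v ∈ U) {S : Finset V} (h : ReflTransGen Move S B) :
    B ⊆ S ∧ R (dirs 0) S + R (dirs 1) S + R (dirs 2) S = 3 * B.card ∧
      (S ⊆ cube n → ∀ v ∈ S, v ∈ U) := by
  induction h using ReflTransGen.head_induction_on with
  | refl =>
      have hR : ∀ t, R (dirs t) B = B.card := by
        intro t
        unfold R
        congr 1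
        rw [Finset.filter_true_of_mem]
        intro b hb hb'
        have := hB t b hb _ hb' 1 (by rw [one_smul])
        omega
      refine ⟨Finset.Subset.refl _, ?_, fun _ => hU⟩
      rw [hR, hR, hR]
      ring
  | head h' _ ih =>
      obtain ⟨v, hv, h3, rfl⟩ := h'
      rename_i S0 _
      obtain ⟨hsub, hsum, hin⟩ := ih
      set S := S0.erase v with hS
      have hvS : v ∉ S := Finset.notMem_erase v S0
      have hins : insert v S = S0 := Finset.insert_erase hv
      have hdeg : (nbrs v ∩ S).card = 3 := by
        rw [← h3]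
        congr 1
        ext w
        simp only [hS, Finset.mem_inter, Finset.mem_erase]
        constructor
        · rintro ⟨h1, h2, h3⟩
          exact ⟨h1, h3⟩
        · rintro ⟨h1, h2⟩
          refine ⟨h1, ?_, h2⟩
          rintro rfl
          exact self_notMem_nbrs _ h1
      rw [deg_eq] at hdeg
      have hle : ∀ t : Fin 3, dg (dirs t) S v ≤ 1 := by
        intro t
        by_contra hcon
        have h5 : v + dirs t ∈ S ∧ v - dirs t ∈ S := by
          unfold dg at hcon
          by_cases ha : v + dirs t ∈ S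
          · by_cases hb : v - dirs t ∈ S
            · exact ⟨ha, hb⟩
            · rw [if_pos ha, if_neg hb] at hcon
              omega
          · by_cases hb : v - dirs t ∈ S
            · rw [if_neg ha, if_pos hb] at hcon
              omega
            · rw [if_neg ha, if_neg hb] at hcon
              omega
        have h6 := (R_ge hB hsub t).2 v hvS h5.2 h5.1
        have g0 := (R_ge hB hsub 0).1
        have g1 := (R_ge hB hsub 1).1
        have g2 := (R_ge hB hsub 2).1
        fin_cases t
        · change B.card < R (dirs 0) S at h6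
          omega
        · change B.card < R (dirs 1) S at h6
          omega
        · change B.card < R (dirs 2) S at h6
          omega
      have l0 := hle 0
      have l1 := hle 1
      have l2 := hle 2
      have r0 := R_insert (dirs_ne 0) hvS
      have r1 := R_insert (dirs_ne 1) hvS
      have r2 := R_insert (dirs_ne 2) hvS
      rw [hins] at r0 r1 r2
      refine ⟨fun b hb => ?_, ?_, ?_⟩
      · exact Finset.mem_of_mem_erase (hsub hb)
      · unfold dg at hdeg
        omega
      · intro hcube w hw
        have hScube : S ⊆ cube n := (Finset.erase_subset _ _).trans hcube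
        by_cases hwv : w = v
        · subst hwv
          have pos : ∀ t : Fin 3, dg (dirs t) S w = 1 →
              (w + dirs t ∈ U ∨ w - dirs t ∈ U) := by
            intro t ht
            unfold dg at ht
            by_cases ha : w + dirs t ∈ S
            · exact Or.inl (hin hScube _ ha)
            · rw [if_neg ha] at ht
              by_cases hb : w - dirs t ∈ S
              · exact Or.inr (hin hScube _ hb)
              · rw [if_neg hb] at ht
                omega
          exact hcl w (hcube hv) (pos 0 (by omega)) (pos 1 (by omega))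
        · exact hin hScube w (Finset.mem_erase.2 ⟨hwv, hw⟩)

theorem percolates {n : ℕ} {B : Finset V} (hB : NoLine B)
    {U : Set V} (hU : ∀ b ∈ B, b ∈ U)
    (hcl : ∀ v ∈ cube n, (v + dirs 0 ∈ U ∨ v - dirs 0 ∈ U) →
      (v + dirs 1 ∈ U ∨ v - dirs 1 ∈ U) → v ∈ U) (h : ReflTransGen Move (cube n) B) :
    ∀ v ∈ cube n, v ∈ U :=
  (chain hB hU hcl h).2.2 (Finset.Subset.refl _)

/-! ### Separable maps -/

/-- `p` maps the positions `[a, a + m)` onto the values `[c, c + m)` in a separable way -/
inductive Sep (p : ℤ → ℤ) : ℤ → ℕ → ℤ → Prop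
  | leaf (a : ℤ) : Sep p a 1 (p a)
  | plus {a : ℤ} {m : ℕ} {c : ℤ} {m' : ℕ} :
      Sep p a m c → Sep p (a + m) m' (c + m) → Sep p a (m + m') c
  | minus {a : ℤ} {m : ℕ} {c : ℤ} {m' : ℕ} :
      Sep p a m (c + m') → Sep p (a + m) m' c → Sep p a (m + m') c

theorem Sep.facts {p : ℤ → ℤ} {a : ℤ} {m : ℕ} {c : ℤ} (h : Sep p a m c) :
    1 ≤ m ∧ (∀ x, a ≤ x → x < a + m → c ≤ p x ∧ p x < c + m) ∧
      (∀ y, c ≤ y → y < c + m → ∃ x, a ≤ x ∧ x < a + m ∧ p x = y) := by
  induction h with
  | leaf a =>
      refine ⟨le_rfl, fun x h1 h2 => ?_, fun y h1 h2 => ⟨a, ?_, ?_, ?_⟩⟩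
      · have : x = a := by push_cast at h2; omega
        subst this
        push_cast
        omega
      · omega
      · push_cast
        omega
      · push_cast at h2
        omega
  | @plus a m c m' h1 h2 ih1 ih2 =>
      obtain ⟨a1, b1, c1⟩ := ih1
      obtain ⟨a2, b2, c2⟩ := ih2
      refine ⟨by omega, fun x h3 h4 => ?_, fun y h3 h4 => ?_⟩
      · push_cast at h4 ⊢
        by_cases hx : x < a + m
        · have := b1 x h3 hx
          omega
        · have := b2 x (by omega) (by omega)
          omega
      · push_cast at h4 ⊢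
        by_cases hy : y < c + m
        · obtain ⟨x, hx1, hx2, hx3⟩ := c1 y h3 hy
          exact ⟨x, hx1, by omega, hx3⟩
        · obtain ⟨x, hx1, hx2, hx3⟩ := c2 y (by omega) (by omega)
          exact ⟨x, by omega, by omega, hx3⟩
  | @minus a m c m' h1 h2 ih1 ih2 =>
      obtain ⟨a1, b1, c1⟩ := ih1
      obtain ⟨a2, b2, c2⟩ := ih2
      refine ⟨by omega, fun x h3 h4 => ?_, fun y h3 h4 => ?_⟩
      · push_cast at h4 ⊢
        by_cases hx : x < a + m
        · have := b1 x h3 hx
          omega
        · have := b2 x (by omega) (by omega)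
          omega
      · push_cast at h4 ⊢
        by_cases hy : y < c + m'
        · obtain ⟨x, hx1, hx2, hx3⟩ := c2 y h3 hy
          exact ⟨x, by omega, by omega, hx3⟩
        · obtain ⟨x, hx1, hx2, hx3⟩ := c1 y (by omega) (by omega)
          exact ⟨x, by omega, by omega, hx3⟩

/-- the positions `[1, n]` are covered by `k` consecutive separable blocks -/
def Cover (p : ℤ → ℤ) (n k : ℕ) : Prop :=
  ∃ (t : ℕ → ℤ) (m : ℕ → ℕ) (c : ℕ → ℤ), t 0 = 1 ∧ t k = n + 1 ∧
    ∀ i, i < k → t (i + 1) = t i + m i ∧ Sep p (t i) (m i) (c i)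

theorem cover_n (p : ℤ → ℤ) (n : ℕ) : Cover p n n := by
  refine ⟨fun i => 1 + i, fun _ => 1, fun i => p (1 + i), by simp, by push_cast; ring, ?_⟩
  intro i _
  refine ⟨by push_cast; ring, Sep.leaf _⟩

theorem cover_merge {p : ℤ → ℤ} {n k i : ℕ} {t : ℕ → ℤ} {m : ℕ → ℕ} {c : ℕ → ℤ}
    (h0 : t 0 = 1) (hk : t k = n + 1)
    (h : ∀ i, i < k → t (i + 1) = t i + m i ∧ Sep p (t i) (m i) (c i))
    (hi : i + 1 < k)
    (hm : c (i + 1) = c i + m i ∨ c i = c (i + 1) + m (i + 1)) : Cover p n (k - 1) := by
  obtain ⟨e1, s1⟩ := h i (by omega)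
  obtain ⟨e2, s2⟩ := h (i + 1) hi
  have hs : ∃ c', Sep p (t i) (m i + m (i + 1)) c' := by
    rcases hm with hm | hm
    · refine ⟨c i, Sep.plus s1 ?_⟩
      rw [← e1, ← hm]
      exact s2
    · refine ⟨c (i + 1), Sep.minus ?_ ?_⟩
      · rw [← hm]
        exact s1
      · rw [← e1]
        exact s2
  obtain ⟨c', hc'⟩ := hs
  refine ⟨fun j => if j ≤ i then t j else t (j + 1),
    fun j => if j < i then m j else if j = i then m i + m (i + 1) else m (j + 1),
    fun j => if j < i then c j else if j = i then c' else c (j + 1), ?_, ?_, ?_⟩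
  · simp [h0]
  · simp only
    rw [if_neg (by omega), show k - 1 + 1 = k by omega, hk]
  · intro j hj
    simp only
    rcases lt_trichotomy j i with hji | hji | hji
    · rw [if_pos (by omega), if_pos (by omega), if_pos hji, if_pos hji]
      exact h j (by omega)
    · subst hji
      rw [if_neg (by omega), if_pos le_rfl, if_neg (by omega), if_pos rfl, if_neg (by omega),
        if_pos rfl]
      refine ⟨?_, hc'⟩
      rw [e2, e1]
      push_cast
      ring
    · rw [if_neg (by omega), if_neg (by omega), if_neg (by omega), if_neg (by omega),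
        if_neg (by omega), if_neg (by omega)]
      exact h (j + 1) (by omega)

/-- the union of the squares of the blocks -/
def sq (k : ℕ) (t : ℕ → ℤ) (m : ℕ → ℕ) (c : ℕ → ℤ) : Set (ℤ × ℤ) :=
  {v | ∃ i, i < k ∧ (t i ≤ v.1 ∧ v.1 < t i + m i) ∧ (c i ≤ v.2 ∧ v.2 < c i + m i)}

theorem separable_of_percolates {n : ℕ} (hn : 1 ≤ n) {p : ℤ → ℤ}
    (hp1 : ∀ x : ℤ, 1 ≤ x → x ≤ n → 1 ≤ p x ∧ p x ≤ n)
    (hp2 : ∀ x y : ℤ, 1 ≤ x → x ≤ n → 1 ≤ y → y ≤ n → p x = p y → x = y)
    (hperc : ∀ U : Set (ℤ × ℤ), (∀ x : ℤ, 1 ≤ x → x ≤ n → (x, p x) ∈ U) →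
      (∀ x y : ℤ, 1 ≤ x → x ≤ n → 1 ≤ y → y ≤ n → ((x + 1, y) ∈ U ∨ (x - 1, y) ∈ U) →
        ((x, y + 1) ∈ U ∨ (x, y - 1) ∈ U) → (x, y) ∈ U) →
      ∀ x y : ℤ, 1 ≤ x → x ≤ n → 1 ≤ y → y ≤ n → (x, y) ∈ U) :
    Sep p 1 n 1 := by
  classical
  have hex : ∃ k, Cover p n k := ⟨n, cover_n p n⟩
  obtain ⟨t, m, c, h0, hk, h⟩ := Nat.find_spec hex
  have hmin : ∀ k', k' < Nat.find hex → ¬ Cover p n k' := fun k' hk' => Nat.find_min hex hk'
  set k := Nat.find hex with hkdef
  -- monotonicity
  have hmono : ∀ i j, i ≤ j → j ≤ k → t i ≤ t j := by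
    intro i j hij
    induction j, hij using Nat.le_induction with
    | base => intro _; exact le_rfl
    | succ j hij ih =>
        intro hj
        have := (h j (by omega)).1
        have := ih (by omega)
        omega
  have hmpos : ∀ i, i < k → 1 ≤ m i := fun i hi => (h i hi).2.facts.1
  have hidx : ∀ x : ℤ, 1 ≤ x → x ≤ n → ∃ i, i < k ∧ t i ≤ x ∧ x < t i + m i := by
    intro x hx1 hx2
    have hex2 : ∃ j, x < t j := ⟨k, by omega⟩
    have h3 := Nat.find_spec hex2
    have h4 : ∀ j, j < Nat.find hex2 → ¬ x < t j := fun j hj => Nat.find_min hex2 hj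
    have h5 : Nat.find hex2 ≠ 0 := by
      intro h5
      rw [h5, h0] at h3
      omega
    have h6 : Nat.find hex2 ≤ k := Nat.find_min' hex2 (by omega)
    refine ⟨Nat.find hex2 - 1, by omega, ?_, ?_⟩
    · have := h4 (Nat.find hex2 - 1) (by omega)
      omega
    · have h7 := (h (Nat.find hex2 - 1) (by omega)).1
      rw [show Nat.find hex2 - 1 + 1 = Nat.find hex2 by omega] at h7
      omega
  have hrange : ∀ i, i < k → ∀ x : ℤ, t i ≤ x → x < t i + m i → 1 ≤ x ∧ x ≤ n := by
    intro i hi x hx1 hx2
    have g1 := hmono 0 i (by omega) (by omega)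
    have g2 := hmono (i + 1) k (by omega) le_rfl
    have g3 := (h i hi).1
    omega
  have huniq : ∀ i j, i < k → j < k → ∀ x, t i ≤ x → x < t i + m i → t j ≤ x →
      x < t j + m j → i = j := by
    intro i j hi hj x h1 h2 h3 h4
    rcases lt_trichotomy i j with hij | hij | hij
    · have g1 := hmono (i + 1) j hij (by omega)
      have g3 := (h i hi).1
      omega
    · exact hij
    · have g1 := hmono (j + 1) i hij (by omega)
      have g3 := (h j hj).1
      omega
  have hJ : ∀ i j, i < k → j < k → ∀ y, c i ≤ y → y < c i + m i → c j ≤ y →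
      y < c j + m j → i = j := by
    intro i j hi hj y h1 h2 h3 h4
    obtain ⟨x, hx1, hx2, hx3⟩ := (h i hi).2.facts.2.2 y h1 h2
    obtain ⟨x', hx1', hx2', hx3'⟩ := (h j hj).2.facts.2.2 y h3 h4
    have r1 := hrange i hi x hx1 hx2
    have r2 := hrange j hj x' hx1' hx2'
    have := hp2 x x' r1.1 r1.2 r2.1 r2.2 (by rw [hx3, hx3'])
    subst this
    exact huniq i j hi hj x hx1 hx2 hx1' hx2'
  -- closure of the union of squares
  have hall := hperc (sq k t m c) (by
    intro x hx1 hx2
    obtain ⟨i, hi, h1, h2⟩ := hidx x hx1 hx2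
    exact ⟨i, hi, ⟨h1, h2⟩, (h i hi).2.facts.2.1 x h1 h2⟩) (by
    intro x y hx1 hx2 hy1 hy2 hx hy
    have hx' : ∃ x', (x' = x + 1 ∨ x' = x - 1) ∧ (x', y) ∈ sq k t m c := by
      rcases hx with hx | hx
      · exact ⟨_, Or.inl rfl, hx⟩
      · exact ⟨_, Or.inr rfl, hx⟩
    have hy' : ∃ y', (y' = y + 1 ∨ y' = y - 1) ∧ (x, y') ∈ sq k t m c := by
      rcases hy with hy | hy
      · exact ⟨_, Or.inl rfl, hy⟩
      · exact ⟨_, Or.inr rfl, hy⟩
    obtain ⟨x', hxx, b, hb, hb1, hb2⟩ := hx'
    obtain ⟨y', hyy, a, ha, ha1, ha2⟩ := hy'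
    simp only at hb1 hb2 ha1 ha2
    by_cases hab : a = b
    · subst hab
      exact ⟨a, ha, ha1, hb2⟩
    · exfalso
      -- the value intervals are adjacent
      have hyJ : ¬ (c a ≤ y ∧ y < c a + m a) := fun hh => hab (hJ a b ha hb y hh.1 hh.2 hb2.1 hb2.2)
      have hyJ' : ¬ (c b ≤ y' ∧ y' < c b + m b) :=
        fun hh => hab (hJ a b ha hb y' ha2.1 ha2.2 hh.1 hh.2)
      have hxI : ¬ (t b ≤ x ∧ x < t b + m b) :=
        fun hh => hab (huniq a b ha hb x ha1.1 ha1.2 hh.1 hh.2)
      have hxI' : ¬ (t a ≤ x' ∧ x' < t a + m a) :=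
        fun hh => hab (huniq a b ha hb x' hh.1 hh.2 hb1.1 hb1.2)
      have hadjJ : c b = c a + m a ∨ c a = c b + m b := by
        rcases hyy with rfl | rfl <;> omega
      have hadjI : t b = t a + m a ∨ t a = t b + m b := by
        rcases hxx with rfl | rfl <;> omega
      rcases hadjI with hI | hI
      · have hb' : b = a + 1 := by
          have e1 := (h a ha).1
          have hmb := hmpos b hb
          rcases lt_trichotomy b (a + 1) with hlt | heq | hgt
          · have := hmono b a (by omega) (by omega)
            have := hmpos a ha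
            omega
          · exact heq
          · have g1 := hmono (a + 1 + 1) b (by omega) (by omega)
            have g2 := (h (a + 1) (by omega)).1
            have g3 := hmpos (a + 1) (by omega)
            omega
        subst hb'
        refine hmin (k - 1) (by omega) (cover_merge h0 hk h hb ?_)
        exact hadjJ
      · have ha' : a = b + 1 := by
          have e1 := (h b hb).1
          have hma := hmpos a ha
          rcases lt_trichotomy a (b + 1) with hlt | heq | hgt
          · have := hmono a b (by omega) (by omega)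
            have := hmpos b hb
            omega
          · exact heq
          · have g1 := hmono (b + 1 + 1) a (by omega) (by omega)
            have g2 := (h (b + 1) (by omega)).1
            have g3 := hmpos (b + 1) (by omega)
            omega
        subst ha'
        refine hmin (k - 1) (by omega) (cover_merge h0 hk h ha ?_)
        exact hadjJ.symm)
  -- only one block
  have hk1 : k = 1 := by
    rcases Nat.lt_or_ge k 2 with hlt | hge
    · rcases Nat.eq_zero_or_pos k with hz | hpos
      · rw [hz, h0] at hk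
        omega
      · omega
    · exfalso
      have m0 := hmpos 0 (by omega)
      have m1 := hmpos 1 (by omega)
      obtain ⟨x, hx1, hx2, hx3⟩ := (h 1 (by omega)).2.facts.2.2 (c 1) le_rfl (by omega)
      have r1 := hrange 1 (by omega) x hx1 hx2
      have r2 := hp1 x r1.1 r1.2
      obtain ⟨i, hi, hi1, hi2⟩ := hall 1 (c 1) le_rfl (by omega) (by omega) (by omega)
      simp only at hi1 hi2
      have e1 : i = 0 := huniq i 0 hi (by omega) 1 hi1.1 hi1.2 (by omega) (by omega)
      subst e1
      have := hJ 0 1 (by omega) (by omega) (c 1) hi2.1 hi2.2 le_rfl (by omega)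
      omega
  rw [hk1] at hk
  have h1 := h 0 (by omega)
  have hm0 : m 0 = n := by
    have := h1.1
    rw [show 0 + 1 = 1 from rfl, hk, h0] at this
    omega
  have hs := h1.2
  rw [hm0, h0] at hs
  have hc : c 0 = 1 := by
    obtain ⟨_, f1, f2⟩ := hs.facts
    obtain ⟨x, hx1, hx2, hx3⟩ := f2 (c 0) le_rfl (by omega)
    have g1 := hp1 x (by omega) (by omega)
    obtain ⟨x', hx1', hx2', hx3'⟩ := f2 (c 0 + n - 1) (by omega) (by omega)
    have g2 := hp1 x' (by omega) (by omega)
    omega
  rw [hc] at hs
  exact hs

/-! ### Counting separable maps by words -/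

/-- one step of the stack machine -/
def step : List (List ℤ) → Fin 3 → List (List ℤ)
  | st, 0 => [0] :: st
  | (l2 :: l1 :: st), 1 => (l1 ++ l2.map (fun y => y + (l1.length : ℤ))) :: st
  | (l2 :: l1 :: st), 2 => (l1.map (fun y => y + (l2.length : ℤ)) ++ l2) :: st
  | st, _ => st

theorem Sep.word {p : ℤ → ℤ} {a : ℤ} {m : ℕ} {c : ℤ} (h : Sep p a m c) :
    ∃ w : List (Fin 3), w.length + 1 = 2 * m ∧
      ∀ st, w.foldl step st = ((List.range m).map (fun i : ℕ => p (a + i) - c)) :: st := by
  induction h with
  | leaf a =>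
      refine ⟨[0], rfl, fun st => ?_⟩
      simp [step]
  | @plus a m c m' h1 h2 ih1 ih2 =>
      obtain ⟨w1, e1, f1⟩ := ih1
      obtain ⟨w2, e2, f2⟩ := ih2
      refine ⟨w1 ++ w2 ++ [1], by simp; omega, fun st => ?_⟩
      rw [List.foldl_append, List.foldl_append, f1, f2]
      simp only [List.foldl_cons, List.foldl_nil, step, List.length_map, List.length_range,
        List.map_map]
      rw [List.range_add, List.map_append, List.map_map]
      congr 2
      apply List.map_congr_left
      intro i _
      simp only [Function.comp_apply]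
      push_cast
      rw [← add_assoc]
      ring
  | @minus a m c m' h1 h2 ih1 ih2 =>
      obtain ⟨w1, e1, f1⟩ := ih1
      obtain ⟨w2, e2, f2⟩ := ih2
      refine ⟨w1 ++ w2 ++ [2], by simp; omega, fun st => ?_⟩
      rw [List.foldl_append, List.foldl_append, f1, f2]
      simp only [List.foldl_cons, List.foldl_nil, step, List.length_map, List.length_range,
        List.map_map]
      rw [List.range_add, List.map_append, List.map_map]
      congr 2
      · apply List.map_congr_left
        intro i _
        simp only [Function.comp_apply]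
        ring
      · apply List.map_congr_left
        intro i _
        simp only [Function.comp_apply]
        push_cast
        rw [← add_assoc]

/-! ### At most `9^(n^2)` Latin squares correspond to solutions -/

/-- the column of the symbol `k` in row `i` -/
noncomputable def col {n : ℕ} (L : LatinSquare n) (i k : Fin n) : Fin n :=
  (Equiv.ofBijective _ (L.2.1 i)).symm k

theorem L_col {n : ℕ} (L : LatinSquare n) (i k : Fin n) : L.1 i (col L i k) = k :=
  (Equiv.ofBijective _ (L.2.1 i)).apply_symm_apply k

theorem col_L {n : ℕ} (L : LatinSquare n) (i j : Fin n) : col L i (L.1 i j) = j :=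
  (Equiv.ofBijective _ (L.2.1 i)).symm_apply_apply j

theorem col_inj {n : ℕ} (L : LatinSquare n) {i i' k : Fin n} (h : col L i k = col L i' k) :
    i = i' := by
  have h1 := L_col L i k
  have h2 := L_col L i' k
  rw [← h] at h2
  exact (L.2.2 (col L i k)).1 (h1.trans h2.symm)

/-- the layer map -/
noncomputable def pk {n : ℕ} (L : LatinSquare n) (k : Fin n) (x : ℤ) : ℤ :=
  if h : 1 ≤ x ∧ x ≤ n then
    ((col L ⟨(x - 1).toNat, by omega⟩ k : Fin n) : ℤ) + 1 else 0

theorem pk_val {n : ℕ} (L : LatinSquare n) (k i : Fin n) :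
    pk L k ((i : ℤ) + 1) = (col L i k : ℤ) + 1 := by
  unfold pk
  have hi := i.2
  rw [dif_pos (by omega)]
  congr 4
  apply Fin.ext
  simp

theorem exists_fin {n : ℕ} {x : ℤ} (h1 : 1 ≤ x) (h2 : x ≤ n) : ∃ i : Fin n, x = (i : ℤ) + 1 :=
  ⟨⟨(x - 1).toNat, by omega⟩, by simp; omega⟩

theorem noLine_assoc {n : ℕ} (L : LatinSquare n) : NoLine (assoc L.1) := by
  intro t b hb b' hb' k h
  unfold assoc at hb hb'
  obtain ⟨⟨i, j⟩, _, rfl⟩ := Finset.mem_image.1 hb
  obtain ⟨⟨i', j'⟩, _, rfl⟩ := Finset.mem_image.1 hb'
  fin_cases t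
  · simp [dirs] at h
    obtain ⟨h1, h2, h3⟩ := h
    have e1 : j' = j := Fin.ext (by omega)
    subst e1
    have e2 : L.1 i' j' = L.1 i j' := Fin.ext (by omega)
    have e3 : i' = i := (L.2.2 j').1 e2
    subst e3
    omega
  · simp [dirs] at h
    obtain ⟨h1, h2, h3⟩ := h
    have e1 : i' = i := Fin.ext (by omega)
    subst e1
    have e2 : L.1 i' j' = L.1 i' j := Fin.ext (by omega)
    have e3 : j' = j := (L.2.1 i').1 e2
    subst e3
    omega
  · simp [dirs] at h
    obtain ⟨h1, h2, h3⟩ := h
    have e1 : i' = i := Fin.ext (by omega)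
    have e2 : j' = j := Fin.ext (by omega)
    subst e1 e2
    omega

theorem sep_of_corresponds {n : ℕ} (hn : 1 ≤ n) (L : LatinSquare n) (hL : Corresponds L)
    (k : Fin n) : Sep (pk L k) 1 n 1 := by
  apply separable_of_percolates hn
  · intro x h1 h2
    obtain ⟨i, rfl⟩ := exists_fin h1 h2
    rw [pk_val]
    have := (col L i k).2
    omega
  · intro x y h1 h2 h3 h4 h
    obtain ⟨i, rfl⟩ := exists_fin h1 h2
    obtain ⟨j, rfl⟩ := exists_fin h3 h4
    rw [pk_val, pk_val] at h
    have : col L i k = col L j k := Fin.ext (by omega)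
    rw [col_inj L this]
  · intro U hU hcl x y hx1 hx2 hy1 hy2
    have hperc := percolates (n := n) (noLine_assoc L)
      (U := {v : V | v.2.2 = (k : ℤ) + 1 → (v.1, v.2.1) ∈ U}) (by
        intro b hb
        unfold assoc at hb
        obtain ⟨⟨i, j⟩, _, rfl⟩ := Finset.mem_image.1 hb
        intro h
        simp only at h ⊢
        have e : L.1 i j = k := Fin.ext (by omega)
        have := hU ((i : ℤ) + 1) (by omega) (by have := i.2; omega)
        rw [pk_val] at this
        rw [← e, col_L] at this
        exact this) (by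
        rintro ⟨a, b, c⟩ hv h0 h1 hc
        simp only [dirs] at h0 h1 hc ⊢
        simp at h0 h1 hc ⊢
        rw [mem_cube] at hv
        simp only at hv
        refine hcl a b (by omega) (by omega) (by omega) (by omega) ?_ ?_
        · rcases h0 with h0 | h0
          · exact Or.inl (h0 hc)
          · exact Or.inr (h0 hc)
        · rcases h1 with h1 | h1
          · exact Or.inl (h1 hc)
          · exact Or.inr (h1 hc)) hL.2.2.2
    have hk := k.2
    have := hperc (x, y, (k : ℤ) + 1) (by rw [mem_cube]; simp only; omega)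
    exact this rfl

theorem exists_word {n : ℕ} (hn : 1 ≤ n) (L : LatinSquare n) (hL : Corresponds L) (k : Fin n) :
    ∃ w : Fin (2 * n - 1) → Fin 3, (List.ofFn w).foldl step [] =
      [(List.range n).map (fun i : ℕ => pk L k (1 + i) - 1)] := by
  obtain ⟨w, hw1, hw2⟩ := (sep_of_corresponds hn L hL k).word
  have hlen : w.length = 2 * n - 1 := by omega
  refine ⟨fun i => w.get (i.cast hlen.symm), ?_⟩
  have : List.ofFn (fun i : Fin (2 * n - 1) => w.get (i.cast hlen.symm)) = w := by
    apply List.ext_get
    · simp [hlen]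
    · intro i h1 h2
      simp
  rw [this, hw2]

theorem card_corresponds {n : ℕ} (hn : 1 ≤ n) :
    Nat.card {L : LatinSquare n // Corresponds L} ≤ 3 ^ (n * (2 * n - 1)) := by
  classical
  have h : ∀ L : {L : LatinSquare n // Corresponds L}, ∀ k : Fin n,
      ∃ w : Fin (2 * n - 1) → Fin 3, (List.ofFn w).foldl step [] =
        [(List.range n).map (fun i : ℕ => pk L.1 k (1 + i) - 1)] :=
    fun L k => exists_word hn L.1 L.2 k
  choose w hw using h
  have hinj : Function.Injective w := by
    intro L L' h
    apply Subtype.ext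
    apply Subtype.ext
    funext i j
    have h1 := hw L (L.1.1 i j)
    have h2 := hw L' (L.1.1 i j)
    rw [h] at h1
    rw [h1] at h2
    have h3 := (List.cons.inj h2).1
    have h4 := congrArg (fun l => l[i.1]?) h3
    simp only [List.getElem?_map, List.getElem?_range i.2] at h4
    simp only [Option.map_some, Option.some.injEq] at h4
    rw [add_comm (1 : ℤ), pk_val, pk_val, col_L] at h4
    have h5 : j = col L'.1 i (L.1.1 i j) := Fin.ext (by omega)
    have h6 := L_col L'.1 i (L.1.1 i j)
    rw [← h5] at h6
    exact h6.symm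
  calc Nat.card {L : LatinSquare n // Corresponds L}
      ≤ Nat.card (Fin n → Fin (2 * n - 1) → Fin 3) := Nat.card_le_card_of_injective w hinj
    _ = 3 ^ (n * (2 * n - 1)) := by
        simp [Nat.card_eq_fintype_card, ← pow_mul, mul_comm]

/-! ### Many Latin squares -/

theorem ext_count {ι β : Type*} [DecidableEq ι] (X Y : Finset (ι → β))
    (a : ι) (junk : β) (E : (ι → β) → Finset β) (A : ℕ) (h1 : ∀ f ∈ X, f a = junk)
    (h2 : ∀ f ∈ X, ∀ v ∈ E f, Function.update f a v ∈ Y) (h3 : ∀ f ∈ X, A ≤ (E f).card) :
    A * X.card ≤ Y.card := by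
  classical
  have h4 : (X.sigma E).card ≤ Y.card := by
    apply Finset.card_le_card_of_injOn (fun q => Function.update q.1 a q.2)
    · rintro ⟨f, v⟩ hq
      rw [Finset.mem_coe, Finset.mem_sigma] at hq
      exact h2 f hq.1 v hq.2
    · rintro ⟨f, v⟩ hq ⟨f', v'⟩ hq' h
      rw [Finset.mem_coe, Finset.mem_sigma] at hq hq'
      simp only at h hq hq'
      have e1 : v = v' := by
        have := congrFun h a
        simpa using this
      have e2 : f = f' := by
        funext i
        by_cases hi : i = a
        · subst hi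
          rw [h1 f hq.1, h1 f' hq'.1]
        · have := congrFun h i
          simpa [hi] using this
      subst e1 e2
      rfl
  rw [Finset.card_sigma] at h4
  have h5 := Finset.card_nsmul_le_sum X (fun f => (E f).card) A h3
  rw [smul_eq_mul] at h5
  rw [mul_comm]
  exact h5.trans h4

section rect

variable {n : ℕ} (z : Fin n)

/-- Latin rectangle formed by the rows `< k`; the other rows are constant -/
def Rect (k : ℕ) (R : Fin n → Fin n → Fin n) : Prop :=
  (∀ i : Fin n, i.1 < k → Function.Injective (R i)) ∧
  (∀ i i' : Fin n, i.1 < k → i'.1 < k → ∀ c, R i c = R i' c → i = i') ∧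
  ∀ i : Fin n, k ≤ i.1 → R i = fun _ => z

/-- the symbols allowed in column `c` of the next row -/
def allowed (k : ℕ) (R : Fin n → Fin n → Fin n) (c : Fin n) : Finset (Fin n) :=
  Finset.univ.filter (fun x => ∀ i : Fin n, i.1 < k → R i c ≠ x)

theorem card_lt {k : ℕ} (hk : k ≤ n) : (Finset.univ.filter (fun i : Fin n => i.1 < k)).card = k := by
  have : (Finset.univ.filter (fun i : Fin n => i.1 < k)) =
      (Finset.univ : Finset (Fin k)).image (Fin.castLE hk) := by
    ext i
    simp only [Finset.mem_filter, Finset.mem_univ, true_and, Finset.mem_image]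
    constructor
    · intro h
      exact ⟨⟨i.1, h⟩, rfl⟩
    · rintro ⟨j, rfl⟩
      exact j.2
  rw [this, Finset.card_image_of_injective _ (Fin.castLE_injective hk)]
  simp

variable {z}

theorem card_allowed {k : ℕ} (hk : k ≤ n) {R : Fin n → Fin n → Fin n} (hR : Rect z k R)
    (c : Fin n) : (allowed k R c).card = n - k := by
  have h1 : allowed k R c =
      Finset.univ \ (Finset.univ.filter (fun i : Fin n => i.1 < k)).image (fun i => R i c) := by
    ext x
    simp only [allowed, Finset.mem_filter, Finset.mem_univ, true_and, Finset.mem_sdiff,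
      Finset.mem_image, not_exists, not_and, ne_eq]
  rw [h1, Finset.card_sdiff_of_subset (Finset.subset_univ _), Finset.card_image_of_injOn, card_lt hk]
  · simp
  · intro i hi i' hi' h
    simp only [Finset.coe_filter, Finset.mem_univ, true_and] at hi hi'
    exact hR.2.1 i i' hi hi' c h

theorem card_forbidden {k : ℕ} (hk : k ≤ n) {R : Fin n → Fin n → Fin n} (hR : Rect z k R)
    (x : Fin n) : (Finset.univ.filter (fun c => x ∉ allowed k R c)).card = k := by
  classical
  have hbij : ∀ i : Fin n, i.1 < k → Function.Bijective (R i) :=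
    fun i hi => Finite.injective_iff_bijective.1 (hR.1 i hi)
  have hex : ∀ i : Fin n, ∃ c, i.1 < k → R i c = x := by
    intro i
    by_cases hi : i.1 < k
    · obtain ⟨c, hc⟩ := (hbij i hi).2 x
      exact ⟨c, fun _ => hc⟩
    · exact ⟨x, fun h => absurd h hi⟩
  choose γ hγ using hex
  have h1 : Finset.univ.filter (fun c => x ∉ allowed k R c) =
      (Finset.univ.filter (fun i : Fin n => i.1 < k)).image γ := by
    ext c
    simp only [allowed, Finset.mem_filter, Finset.mem_univ, true_and, Finset.mem_image, ne_eq,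
      not_forall, not_not]
    constructor
    · rintro ⟨i, hi, hic⟩
      refine ⟨i, hi, ?_⟩
      apply hR.1 i hi
      rw [hγ i hi, hic]
    · rintro ⟨i, hi, rfl⟩
      exact ⟨i, hi, hγ i hi⟩
  rw [h1, Finset.card_image_of_injOn, card_lt hk]
  intro i hi i' hi' h
  simp only [Finset.coe_filter, Finset.mem_univ, true_and] at hi hi'
  apply hR.2.1 i i' hi hi' (γ i)
  rw [hγ i hi, h, hγ i' hi']

/-- a Latin rectangle has a further row -/
theorem hall_row {k : ℕ} (hk : k < n) {R : Fin n → Fin n → Fin n} (hR : Rect z k R) :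
    ∃ h : Fin n → Fin n, Function.Injective h ∧ ∀ c, h c ∈ allowed k R c := by
  classical
  rw [← Finset.all_card_le_biUnion_card_iff_exists_injective]
  intro s
  have h1 : s.card * (n - k) ≤ (s.biUnion (allowed k R)).card * (n - k) := by
    apply Finset.card_mul_le_card_mul (fun c x => x ∈ allowed k R c)
    · intro c hc
      rw [← card_allowed hk.le hR c]
      apply Finset.card_le_card
      intro x hx
      rw [Finset.mem_bipartiteAbove]
      exact ⟨Finset.mem_biUnion.2 ⟨c, hc, hx⟩, hx⟩
    · intro x _
      have h2 := card_forbidden hk.le hR x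
      have h3 := Finset.card_filter_add_card_filter_not (s := (Finset.univ : Finset (Fin n)))
        (fun c => x ∉ allowed k R c)
      rw [h2, Finset.card_univ, Fintype.card_fin] at h3
      have h4 : (s.bipartiteBelow (fun c x => x ∈ allowed k R c) x).card ≤
          (Finset.univ.filter (fun c => ¬ (x ∉ allowed k R c))).card := by
        apply Finset.card_le_card
        intro c hc
        rw [Finset.mem_bipartiteBelow] at hc
        rw [Finset.mem_filter]
        exact ⟨Finset.mem_univ _, not_not.2 hc.2⟩
      omega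
  exact Nat.le_of_mul_le_mul_right h1 (by omega)

/-- partial rows: the entries in the columns `< j` are chosen -/
def Prt (z : Fin n) (k : ℕ) (R : Fin n → Fin n → Fin n) (j : ℕ) (g : Fin n → Fin n) : Prop :=
  (∀ c : Fin n, c.1 < j → g c ∈ allowed k R c) ∧
  (∀ c c' : Fin n, c.1 < j → c'.1 < j → g c = g c' → c = c') ∧
  ∀ c : Fin n, j ≤ c.1 → g c = z

theorem hall_partial {k m : ℕ} (hm : 4 * m ≤ n) (hk : k < m) {R : Fin n → Fin n → Fin n}
    (hR : Rect z k R) {g : Fin n → Fin n} (hg : Prt z k R m g) :
    ∃ h : Fin n → Fin n, (Function.Injective h ∧ ∀ c, h c ∈ allowed k R c) ∧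
      ∀ c : Fin n, c.1 < m → h c = g c := by
  classical
  let G : Finset (Fin n) := (Finset.univ.filter (fun c : Fin n => c.1 < m)).image g
  have hG : G.card = m := by
    rw [Finset.card_image_of_injOn, card_lt (by omega)]
    intro c hc c' hc' h
    simp only [Finset.coe_filter, Finset.mem_univ, true_and] at hc hc'
    exact hg.2.1 c c' hc hc' h
  let t : Fin n → Finset (Fin n) := fun c => if c.1 < m then {g c} else allowed k R c \ G
  have hall : ∃ h : Fin n → Fin n, Function.Injective h ∧ ∀ c, h c ∈ t c := by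
    rw [← Finset.all_card_le_biUnion_card_iff_exists_injective]
    intro s
    let s1 := s.filter (fun c => c.1 < m)
    let s2 := s.filter (fun c => ¬ c.1 < m)
    have hs : s1.card + s2.card = s.card := Finset.card_filter_add_card_filter_not _
    have hs1 : (s1.image g).card = s1.card := by
      apply Finset.card_image_of_injOn
      intro c hc c' hc' h
      simp only [s1, Finset.coe_filter] at hc hc'
      exact hg.2.1 c c' hc.2 hc'.2 h
    have hsub : s1.image g ∪ s2.biUnion (fun c => allowed k R c \ G) ⊆ s.biUnion t := by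
      intro x hx
      rw [Finset.mem_union] at hx
      rw [Finset.mem_biUnion]
      rcases hx with hx | hx
      · obtain ⟨c, hc, rfl⟩ := Finset.mem_image.1 hx
        rw [Finset.mem_filter] at hc
        refine ⟨c, hc.1, ?_⟩
        simp only [t, if_pos hc.2, Finset.mem_singleton]
      · obtain ⟨c, hc, hx2⟩ := Finset.mem_biUnion.1 hx
        rw [Finset.mem_filter] at hc
        refine ⟨c, hc.1, ?_⟩
        simp only [t, if_neg hc.2]
        exact hx2
    have hdisj : Disjoint (s1.image g) (s2.biUnion (fun c => allowed k R c \ G)) := by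
      rw [Finset.disjoint_left]
      intro x hx hx2
      obtain ⟨c, hc, rfl⟩ := Finset.mem_image.1 hx
      obtain ⟨c', _, hx3⟩ := Finset.mem_biUnion.1 hx2
      rw [Finset.mem_sdiff] at hx3
      apply hx3.2
      rw [Finset.mem_filter] at hc
      exact Finset.mem_image.2 ⟨c, Finset.mem_filter.2 ⟨Finset.mem_univ _, hc.2⟩, rfl⟩
    have h2 : s2.card ≤ (s2.biUnion (fun c => allowed k R c \ G)).card := by
      rcases Nat.lt_or_ge m s2.card with hlt | hge
      · -- every symbol outside `G` occurs
        have h3 : Finset.univ \ G ⊆ s2.biUnion (fun c => allowed k R c \ G) := by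
          intro x hx
          rw [Finset.mem_sdiff] at hx
          by_contra hcon
          have h4 : s2 ⊆ Finset.univ.filter (fun c => x ∉ allowed k R c) := by
            intro c hc
            rw [Finset.mem_filter]
            refine ⟨Finset.mem_univ _, fun h5 => ?_⟩
            exact hcon (Finset.mem_biUnion.2 ⟨c, hc, Finset.mem_sdiff.2 ⟨h5, hx.2⟩⟩)
          have h5 := Finset.card_le_card h4
          rw [card_forbidden (by omega) hR x] at h5
          omega
        have h4 := Finset.card_le_card h3
        rw [Finset.card_sdiff_of_subset (Finset.subset_univ _), hG, Finset.card_univ, Fintype.card_fin]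
          at h4
        have h5 : s2.card ≤ n - m := by
          have h6 : s2 ⊆ Finset.univ.filter (fun c : Fin n => ¬ c.1 < m) := by
            intro c hc
            rw [Finset.mem_filter] at hc ⊢
            exact ⟨Finset.mem_univ _, hc.2⟩
          have h7 := Finset.card_le_card h6
          have h8 := Finset.card_filter_add_card_filter_not (s := (Finset.univ : Finset (Fin n)))
            (fun c => c.1 < m)
          rw [card_lt (by omega), Finset.card_univ, Fintype.card_fin] at h8
          omega
        omega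
      · rcases s2.eq_empty_or_nonempty with he | ⟨c, hc⟩
        · rw [he]
          simp
        · have h3 : allowed k R c \ G ⊆ s2.biUnion (fun c => allowed k R c \ G) :=
            Finset.subset_biUnion_of_mem (fun c => allowed k R c \ G) hc
          have h4 := Finset.card_le_card h3
          have h5 := Finset.le_card_sdiff G (allowed k R c)
          rw [card_allowed (by omega) hR c, hG] at h5
          omega
    calc s.card = s1.card + s2.card := hs.symm
      _ ≤ (s1.image g).card + (s2.biUnion (fun c => allowed k R c \ G)).card := by omega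
      _ = (s1.image g ∪ s2.biUnion (fun c => allowed k R c \ G)).card :=
          (Finset.card_union_of_disjoint hdisj).symm
      _ ≤ _ := Finset.card_le_card hsub
  obtain ⟨h, hinj, ht⟩ := hall
  refine ⟨h, ⟨hinj, fun c => ?_⟩, fun c hc => ?_⟩
  · have := ht c
    by_cases hc : c.1 < m
    · simp only [t, if_pos hc, Finset.mem_singleton] at this
      rw [this]
      exact hg.1 c hc
    · simp only [t, if_neg hc] at this
      exact (Finset.mem_sdiff.1 this).1
  · have := ht c
    simp only [t, if_pos hc, Finset.mem_singleton] at this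
    exact this

theorem card_partial {k m : ℕ} (hm : 4 * m ≤ n) (hk : k < m) {R : Fin n → Fin n → Fin n}
    (hR : Rect z k R) (j : ℕ) (hj : j ≤ m) :
    (2 * m) ^ j ≤ Nat.card {g : Fin n → Fin n // Prt z k R j g} := by
  classical
  rw [Nat.card_eq_fintype_card, Fintype.card_subtype]
  induction j with
  | zero =>
      rw [pow_zero, Nat.one_le_iff_ne_zero, ← Nat.pos_iff_ne_zero, Finset.card_pos]
      refine ⟨fun _ => z, ?_⟩
      rw [Finset.mem_filter]
      exact ⟨Finset.mem_univ _, fun c hc => absurd hc (by omega), fun c c' hc => absurd hc (by omega),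
        fun _ _ => rfl⟩
  | succ j ih =>
      have ih := ih (by omega)
      let a : Fin n := ⟨j, by omega⟩
      rw [pow_succ, mul_comm]
      refine le_trans (Nat.mul_le_mul_left _ ih) ?_
      apply ext_count _ _ a z (fun g => allowed k R a \
        (Finset.univ.filter (fun c : Fin n => c.1 < j)).image g)
      · intro g hg
        rw [Finset.mem_filter] at hg
        exact hg.2.2.2 a le_rfl
      · intro g hg v hv
        rw [Finset.mem_filter] at hg ⊢
        rw [Finset.mem_sdiff] at hv
        obtain ⟨_, g1, g2, g3⟩ := hg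
        have hne : ∀ c : Fin n, c.1 < j → c ≠ a := by
          rintro c hc rfl
          simp [a] at hc
        have hlast : ∀ c : Fin n, c.1 < j + 1 → ¬ c.1 < j → c = a := by
          intro c h1 h2
          apply Fin.ext
          simp only [a]
          omega
        refine ⟨Finset.mem_univ _, ?_, ?_, ?_⟩
        · intro c hc
          by_cases hcj : c.1 < j
          · rw [Function.update_of_ne (hne c hcj)]
            exact g1 c hcj
          · have := hlast c hc hcj
            subst this
            rw [Function.update_self]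
            exact hv.1
        · intro c c' hc hc' h
          by_cases hcj : c.1 < j
          · by_cases hcj' : c'.1 < j
            · rw [Function.update_of_ne (hne c hcj), Function.update_of_ne (hne c' hcj')] at h
              exact g2 c c' hcj hcj' h
            · have e := hlast c' hc' hcj'
              rw [Function.update_of_ne (hne c hcj), e, Function.update_self] at h
              exact absurd (Finset.mem_image.2 ⟨c, Finset.mem_filter.2 ⟨Finset.mem_univ _, hcj⟩, h⟩)
                hv.2
          · have e := hlast c hc hcj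
            by_cases hcj' : c'.1 < j
            · rw [Function.update_of_ne (hne c' hcj'), e, Function.update_self] at h
              exact absurd (Finset.mem_image.2
                ⟨c', Finset.mem_filter.2 ⟨Finset.mem_univ _, hcj'⟩, h.symm⟩) hv.2
            · rw [e, hlast c' hc' hcj']
        · intro c hc
          rw [Function.update_of_ne]
          · exact g3 c (by omega)
          · rintro rfl
            simp only [a] at hc
            omega
      · intro g hg
        rw [Finset.mem_filter] at hg
        have h1 := Finset.le_card_sdiff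
          ((Finset.univ.filter (fun c : Fin n => c.1 < j)).image g) (allowed k R a)
        have h2 : ((Finset.univ.filter (fun c : Fin n => c.1 < j)).image g).card ≤ j :=
          Finset.card_image_le.trans (card_lt (by omega)).le
        rw [card_allowed (by omega) hR a] at h1
        omega

/-- number of ways to add a row -/
theorem card_rows {k m : ℕ} (hm : 4 * m ≤ n) (hk : k < m) {R : Fin n → Fin n → Fin n}
    (hR : Rect z k R) : (2 * m) ^ m ≤
      Nat.card {h : Fin n → Fin n // Function.Injective h ∧ ∀ c, h c ∈ allowed k R c} := by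
  classical
  refine (card_partial hm hk hR m le_rfl).trans ?_
  have hex : ∀ g : {g : Fin n → Fin n // Prt z k R m g},
      ∃ h : {h : Fin n → Fin n // Function.Injective h ∧ ∀ c, h c ∈ allowed k R c},
        ∀ c : Fin n, c.1 < m → h.1 c = g.1 c := by
    intro g
    obtain ⟨h, h1, h2⟩ := hall_partial hm hk hR g.2
    exact ⟨⟨h, h1⟩, h2⟩
  choose F hF using hex
  apply Nat.card_le_card_of_injective F
  intro g g' h
  apply Subtype.ext
  funext c
  by_cases hc : c.1 < m
  · rw [← hF g c hc, ← hF g' c hc, h]
  · rw [g.2.2.2 c (by omega), g'.2.2.2 c (by omega)]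

theorem card_rect_succ {k A : ℕ} (hk : k < n)
    (hA : ∀ R : Fin n → Fin n → Fin n, Rect z k R → A ≤
      Nat.card {h : Fin n → Fin n // Function.Injective h ∧ ∀ c, h c ∈ allowed k R c}) :
    A * Nat.card {R : Fin n → Fin n → Fin n // Rect z k R} ≤
      Nat.card {R : Fin n → Fin n → Fin n // Rect z (k + 1) R} := by
  classical
  rw [Nat.card_eq_fintype_card, Nat.card_eq_fintype_card, Fintype.card_subtype,
    Fintype.card_subtype]
  let a : Fin n := ⟨k, hk⟩
  apply ext_count _ _ a (fun _ => z) (fun R => Finset.univ.filter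
    (fun h : Fin n → Fin n => Function.Injective h ∧ ∀ c, h c ∈ allowed k R c))
  · intro R hR
    rw [Finset.mem_filter] at hR
    exact hR.2.2.2 a le_rfl
  · intro R hR h hh
    rw [Finset.mem_filter] at hR hh ⊢
    obtain ⟨_, r1, r2, r3⟩ := hR
    obtain ⟨_, h1, h2⟩ := hh
    have hne : ∀ c : Fin n, c.1 < k → c ≠ a := by
      rintro c hc rfl
      simp [a] at hc
    have hlast : ∀ c : Fin n, c.1 < k + 1 → ¬ c.1 < k → c = a := by
      intro c h1 h2
      apply Fin.ext
      simp only [a]
      omega
    refine ⟨Finset.mem_univ _, ?_, ?_, ?_⟩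
    · intro i hi
      by_cases hik : i.1 < k
      · rw [Function.update_of_ne (hne i hik)]
        exact r1 i hik
      · rw [hlast i hi hik, Function.update_self]
        exact h1
    · intro i i' hi hi' c hc
      have key : ∀ i : Fin n, i.1 < k → R i c ≠ h c := by
        intro i hi
        have := h2 c
        unfold allowed at this
        rw [Finset.mem_filter] at this
        exact this.2 i hi
      by_cases hik : i.1 < k
      · by_cases hik' : i'.1 < k
        · rw [Function.update_of_ne (hne i hik), Function.update_of_ne (hne i' hik')] at hc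
          exact r2 i i' hik hik' c hc
        · rw [Function.update_of_ne (hne i hik), hlast i' hi' hik', Function.update_self] at hc
          exact absurd hc (key i hik)
      · by_cases hik' : i'.1 < k
        · rw [Function.update_of_ne (hne i' hik'), hlast i hi hik, Function.update_self] at hc
          exact absurd hc.symm (key i' hik')
        · rw [hlast i hi hik, hlast i' hi' hik']
    · intro i hi
      rw [Function.update_of_ne]
      · exact r3 i (by omega)
      · rintro rfl
        simp only [a] at hi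
        omega
  · intro R hR
    rw [Finset.mem_filter] at hR
    have := hA R hR.2
    rwa [Nat.card_eq_fintype_card, Fintype.card_subtype] at this

theorem card_rect_zero : 1 ≤ Nat.card {R : Fin n → Fin n → Fin n // Rect z 0 R} := by
  have : Nonempty {R : Fin n → Fin n → Fin n // Rect z 0 R} :=
    ⟨⟨fun _ _ => z, fun i hi => absurd hi (by omega), fun i i' hi => absurd hi (by omega),
      fun _ _ => rfl⟩⟩
  exact Nat.one_le_iff_ne_zero.2 Nat.card_pos.ne'

theorem card_rect_low {m : ℕ} (hm : 4 * m ≤ n) (k : ℕ) (hk : k ≤ m) :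
    ((2 * m) ^ m) ^ k ≤ Nat.card {R : Fin n → Fin n → Fin n // Rect z k R} := by
  induction k with
  | zero => simpa using card_rect_zero
  | succ k ih =>
      have ih := ih (by omega)
      have h1 := card_rect_succ (z := z) (k := k) (A := (2 * m) ^ m) (by omega)
        (fun R hR => card_rows hm (by omega) hR)
      refine le_trans ?_ h1
      rw [pow_succ, mul_comm]
      exact Nat.mul_le_mul_left _ ih

theorem card_rect_all {m : ℕ} (hm : 4 * m ≤ n) (k : ℕ) (hk : k ≤ n) (hmk : m ≤ k) :
    ((2 * m) ^ m) ^ m ≤ Nat.card {R : Fin n → Fin n → Fin n // Rect z k R} := by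
  induction k, hmk using Nat.le_induction with
  | base => exact card_rect_low hm m le_rfl
  | succ k hmk ih =>
      have ih := ih (by omega)
      have h1 := card_rect_succ (z := z) (k := k) (A := 1) (by omega) (fun R hR => by
        obtain ⟨h, h1, h2⟩ := hall_row (by omega) hR
        have : Nonempty {h : Fin n → Fin n // Function.Injective h ∧ ∀ c, h c ∈ allowed k R c} :=
          ⟨⟨h, h1, h2⟩⟩
        exact Nat.one_le_iff_ne_zero.2 Nat.card_pos.ne')
      rw [one_mul] at h1
      exact ih.trans h1

end rect

theorem card_latin {n m : ℕ} (hn : 1 ≤ n) (hm : 4 * m ≤ n) :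
    (2 * m) ^ (m * m) ≤ Nat.card (LatinSquare n) := by
  classical
  let z : Fin n := ⟨0, hn⟩
  have h1 := card_rect_all (z := z) hm n le_rfl (by omega)
  rw [← pow_mul] at h1
  refine h1.trans ?_
  have hF : ∀ R : Fin n → Fin n → Fin n, Rect z n R → IsLatin R := by
    intro R hR
    refine ⟨fun i => Finite.injective_iff_bijective.1 (hR.1 i i.2), fun j => ?_⟩
    apply Finite.injective_iff_bijective.1
    intro i i' h
    exact hR.2.1 i i' i.2 i'.2 j h
  exact Nat.card_le_card_of_injective
    (fun R : {R : Fin n → Fin n → Fin n // Rect z n R} => (⟨R.1, hF R.1 R.2⟩ : LatinSquare n))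
    (fun R R' h => Subtype.ext (by
      have h2 := congrArg Subtype.val h
      exact h2))

/-! ### Isotopism classes -/

theorem card_latin_le (n : ℕ) : Nat.card (LatinSquare n) ≤ n.factorial ^ 3 * I n := by
  classical
  -- every square is obtained from the representative of its class by three permutations
  have hex : ∀ L : LatinSquare n, ∃ q : (Equiv.Perm (Fin n) × Equiv.Perm (Fin n) ×
      Equiv.Perm (Fin n)), ∀ i j, L.1 (q.1 i) (q.2.1 j) =
        q.2.2 ((Quotient.out (Quotient.mk (isoSetoid n) L)).1 i j) := by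
    intro L
    have h : Isotopic (Quotient.out (Quotient.mk (isoSetoid n) L)) L :=
      Quotient.exact (s := isoSetoid n) (Quotient.out_eq _)
    obtain ⟨α, β, γ, h⟩ := h
    exact ⟨(α, β, γ), h⟩
  choose q hq using hex
  have hinj : Function.Injective (fun L : LatinSquare n => (q L, Quotient.mk (isoSetoid n) L)) := by
    intro L L' h
    have h1 : q L = q L' := congrArg Prod.fst h
    have h2 : Quotient.mk (isoSetoid n) L = Quotient.mk (isoSetoid n) L' := congrArg Prod.snd h
    apply Subtype.ext
    funext i j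
    have e1 := hq L ((q L).1.symm i) ((q L).2.1.symm j)
    have e2 := hq L' ((q L).1.symm i) ((q L).2.1.symm j)
    rw [← h1, ← h2] at e2
    rw [Equiv.apply_symm_apply, Equiv.apply_symm_apply] at e1 e2
    rw [e1, e2]
  have h1 := Nat.card_le_card_of_injective _ hinj
  rw [Nat.card_prod, Nat.card_prod, Nat.card_prod] at h1
  have h2 : Nat.card (Equiv.Perm (Fin n)) = n.factorial := by
    rw [Nat.card_eq_fintype_card, Fintype.card_perm, Fintype.card_fin]
  rw [h2] at h1
  unfold I
  refine h1.trans (le_of_eq ?_)
  ring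

theorem s_le (n : ℕ) : s n ≤ Nat.card {L : LatinSquare n // Corresponds L} := by
  classical
  unfold s
  apply Nat.card_le_card_of_surjective
    (fun L : {L : LatinSquare n // Corresponds L} =>
      (⟨Quotient.mk (isoSetoid n) L.1, L.1, rfl, L.2⟩ : {c : Quotient (isoSetoid n) //
        ∃ L : LatinSquare n, Quotient.mk (isoSetoid n) L = c ∧ Corresponds L}))
  rintro ⟨c, L, hL, hc⟩
  exact ⟨⟨L, hc⟩, Subtype.ext hL⟩

/-! ### Asymptotics -/

theorem arith {m n : ℕ} (hm : 9 ^ 26 ≤ m) (h1 : n ≤ 5 * m) :
    n * 9 ^ (n * n) * n.factorial ^ 3 ≤ (2 * m) ^ (m * m) := by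
  have hm5 : 832 ≤ m := le_trans (by norm_num) hm
  have hmpos : 0 < m := by omega
  have e1 : n * n.factorial ^ 3 ≤ m ^ (32 * m) := by
    calc n * n.factorial ^ 3 ≤ (5 * m) * ((5 * m) ^ (5 * m)) ^ 3 := by
          apply Nat.mul_le_mul h1
          apply Nat.pow_le_pow_left
          calc n.factorial ≤ n ^ n := Nat.factorial_le_pow n
            _ ≤ (5 * m) ^ n := Nat.pow_le_pow_left h1 n
            _ ≤ (5 * m) ^ (5 * m) := Nat.pow_le_pow_right (by omega) h1
      _ = (5 * m) ^ (15 * m + 1) := by
          rw [← pow_mul, pow_succ, mul_comm]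
          congr 2
          ring
      _ ≤ (m ^ 2) ^ (15 * m + 1) := by
          apply Nat.pow_le_pow_left
          nlinarith
      _ = m ^ (2 * (15 * m + 1)) := by rw [← pow_mul]
      _ ≤ m ^ (32 * m) := Nat.pow_le_pow_right hmpos (by omega)
  have e2 : 9 ^ (n * n) ≤ m ^ (m * m - 32 * m) := by
    calc 9 ^ (n * n) ≤ 9 ^ (26 * (m * m - 32 * m)) := by
          apply Nat.pow_le_pow_right (by norm_num)
          have h2 : n * n ≤ (5 * m) * (5 * m) := Nat.mul_le_mul h1 h1
          have h3 : 832 * m ≤ m * m := Nat.mul_le_mul_right m hm5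
          have h4 : (5 * m) * (5 * m) = 25 * (m * m) := by ring
          generalize m * m = q at *
          omega
      _ = (9 ^ 26) ^ (m * m - 32 * m) := by rw [← pow_mul]
      _ ≤ m ^ (m * m - 32 * m) := Nat.pow_le_pow_left hm _
  calc n * 9 ^ (n * n) * n.factorial ^ 3 = 9 ^ (n * n) * (n * n.factorial ^ 3) := by ring
    _ ≤ m ^ (m * m - 32 * m) * m ^ (32 * m) := Nat.mul_le_mul e2 e1
    _ = m ^ (m * m) := by
        rw [← pow_add]
        congr 1
        have h3 : 832 * m ≤ m * m := Nat.mul_le_mul_right m hm5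
        generalize m * m = q at *
        omega
    _ ≤ (2 * m) ^ (m * m) := Nat.pow_le_pow_left (by omega) _

theorem main_bound {n : ℕ} (hn : 4 * 9 ^ 26 ≤ n) : n * s n ≤ I n := by
  have hm : 9 ^ 26 ≤ n / 4 := by omega
  have h1 := card_latin (n := n) (m := n / 4) (by omega) (by omega)
  have h2 := card_latin_le n
  have h3 := (s_le n).trans (card_corresponds (by omega))
  have h4 : 3 ^ (n * (2 * n - 1)) ≤ 9 ^ (n * n) := by
    rw [show (9 : ℕ) = 3 ^ 2 by norm_num, ← pow_mul]
    apply Nat.pow_le_pow_right (by norm_num)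
    calc n * (2 * n - 1) ≤ n * (2 * n) := Nat.mul_le_mul_left _ (by omega)
      _ = 2 * (n * n) := by ring
  have h5 := arith hm (n := n) (by omega)
  have h6 : (n * s n) * n.factorial ^ 3 ≤ I n * n.factorial ^ 3 := by
    calc (n * s n) * n.factorial ^ 3 ≤ (n * 9 ^ (n * n)) * n.factorial ^ 3 := by
          apply Nat.mul_le_mul_right
          apply Nat.mul_le_mul_left
          exact h3.trans h4
      _ ≤ (2 * (n / 4)) ^ (n / 4 * (n / 4)) := h5
      _ ≤ Nat.card (LatinSquare n) := h1
      _ ≤ n.factorial ^ 3 * I n := h2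
      _ = I n * n.factorial ^ 3 := by ring
  exact Nat.le_of_mul_le_mul_right h6 (by positivity)

/-- **Theorem.** `s_n / I_n → 0`.  In particular the statement `s_n / I_n > 1/2` for all
sufficiently large `n` is false. -/
theorem result :
    Filter.Tendsto (fun n : ℕ => (s n : ℝ) / (I n : ℝ)) Filter.atTop (nhds 0) ∧
      ¬ ∃ N : ℕ, ∀ n : ℕ, N ≤ n → (s n : ℝ) / (I n : ℝ) > 1 / 2 := by
  have hbound : ∀ n : ℕ, 4 * 9 ^ 26 ≤ n → (s n : ℝ) / (I n : ℝ) ≤ 1 / n := by
    intro n hn
    have h1 := main_bound hn
    have hnpos : (0 : ℝ) < n := by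
      have : 0 < n := by omega
      exact_mod_cast this
    rcases Nat.eq_zero_or_pos (I n) with h0 | hpos
    · rw [h0]
      simp
    · have hI : (0 : ℝ) < I n := by exact_mod_cast hpos
      rw [div_le_div_iff₀ hI hnpos, one_mul, mul_comm]
      exact_mod_cast h1
  have hlim : Filter.Tendsto (fun n : ℕ => (s n : ℝ) / (I n : ℝ)) Filter.atTop (nhds 0) := by
    refine squeeze_zero' (Filter.Eventually.of_forall fun n => by positivity) ?_
      tendsto_one_div_atTop_nhds_zero_nat
    filter_upwards [Filter.eventually_ge_atTop (4 * 9 ^ 26)] with n hn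
    exact hbound n hn
  refine ⟨hlim, ?_⟩
  rintro ⟨N, hN⟩
  have h1 : ∀ᶠ n : ℕ in Filter.atTop, (s n : ℝ) / (I n : ℝ) < 1 / 2 :=
    hlim.eventually (gt_mem_nhds (by norm_num))
  obtain ⟨n, hn1, hn2⟩ := (h1.and (Filter.eventually_ge_atTop N)).exists
  have := hN n hn2
  linarith

end Pool.Agent.Results.MP_e02782_co.FewClasses
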